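import Mathlib
import Pool.Agent.TH787.WreathUltra

/-!
# A topologizable group all of whose sequential Hausdorff group topologies are discrete
-/

set_option autoImplicit false

namespace Pool.Agent.Results.MP_37efd7_lc.LargeGroup

open Filter Topology
open scoped Ordinal

/-- `[A]'`: the set of limits of convergent sequences of points of `A`. -/
def seqLimits {X : Type} [TopologicalSpace X] (A : Set X) : Set X :=
  {x | ∃ s : ℕ → X, (∀ n, s n ∈ A) ∧ Tendsto s atTop (𝓝 x)}

/-- The iterated sequential closures: `[A]_0 = A`, `[A]_{α+1} = ([A]_α)'`, and unions at limits. -/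
noncomputable def iter {X : Type} [TopologicalSpace X] (A : Set X) (α : Ordinal.{0}) : Set X :=
  Ordinal.limitRecOn α A (fun _ B => seqLimits B) (fun o _ f => ⋃ (β : Ordinal.{0}) (h : β < o), f β h)

/-- `X` is sequential: `[A]_{ω₁}` is the closure of `A` for every `A`. -/
def IsSeq (X : Type) [TopologicalSpace X] : Prop :=
  ∀ A : Set X, iter A (ω_ 1) = closure A

/-- The sequential order: the least `α ≤ ω₁` with `[A]_α` equal to the closure of `A` for all `A`. -/
noncomputable def so (X : Type) [TopologicalSpace X] : Ordinal.{0} :=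
  sInf {α | α ≤ ω_ 1 ∧ ∀ A : Set X, iter A α = closure A}

/-- `G` is topologizable: it has a nondiscrete Hausdorff group topology. -/
def Topologizable (G : Type) [Group G] : Prop :=
  ∃ t : TopologicalSpace G, @IsTopologicalGroup G t _ ∧ @T2Space G t ∧ ¬ @DiscreteTopology G t

/-- `G` admits a sequential (Hausdorff) group topology of intermediate sequential order. -/
def AdmitsIntermediate (G : Type) [Group G] : Prop :=
  ∃ t : TopologicalSpace G, @IsTopologicalGroup G t _ ∧ @T2Space G t ∧
    @IsSeq G t ∧ 1 < @so G t ∧ @so G t < ω_ 1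

section

variable {X : Type} [TopologicalSpace X]

lemma iter_zero (A : Set X) : iter A 0 = A := by
  unfold iter
  rw [Ordinal.limitRecOn_zero]

lemma iter_succ (A : Set X) (α : Ordinal.{0}) : iter A (α + 1) = seqLimits (iter A α) := by
  unfold iter
  rw [Ordinal.limitRecOn_add_one]

lemma iter_limit (A : Set X) (α : Ordinal.{0}) (h : Order.IsSuccLimit α) :
    iter A α = ⋃ (β : Ordinal.{0}) (_ : β < α), iter A β := by
  unfold iter
  rw [Ordinal.limitRecOn_limit _ _ _ _ h]

lemma seqLimits_eq_self (h : ∀ (s : ℕ → X) (x : X), Tendsto s atTop (𝓝 x) → ∀ᶠ n in atTop, s n = x)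
    (A : Set X) : seqLimits A = A := by
  apply Set.Subset.antisymm
  · rintro x ⟨s, hs, hx⟩
    obtain ⟨n, hn⟩ := (h s x hx).exists
    rw [← hn]
    exact hs n
  · intro x hx
    exact ⟨fun _ => x, fun _ => hx, tendsto_const_nhds⟩

lemma iter_eq_self (h : ∀ (s : ℕ → X) (x : X), Tendsto s atTop (𝓝 x) → ∀ᶠ n in atTop, s n = x)
    (A : Set X) (α : Ordinal.{0}) : iter A α = A := by
  induction α using Ordinal.limitRecOn with
  | zero => exact iter_zero A
  | add_one o ih => rw [iter_succ, ih, seqLimits_eq_self h]
  | limit o ho ih =>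
    rw [iter_limit A o ho]
    apply Set.Subset.antisymm
    · intro x hx
      simp only [Set.mem_iUnion] at hx
      obtain ⟨β, hβ, hx⟩ := hx
      rwa [ih β hβ] at hx
    · intro x hx
      simp only [Set.mem_iUnion]
      exact ⟨0, ho.bot_lt, by rwa [iter_zero]⟩

lemma discrete_of_isSeq
    (h : ∀ (s : ℕ → X) (x : X), Tendsto s atTop (𝓝 x) → ∀ᶠ n in atTop, s n = x)
    (hs : IsSeq X) : DiscreteTopology X := by
  rw [discreteTopology_iff_forall_isClosed]
  intro A
  rw [← closure_subset_iff_isClosed, ← hs A, iter_eq_self h A]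

lemma so_eq_zero [DiscreteTopology X] : so X = 0 := by
  apply le_antisymm _ (bot_le)
  apply csInf_le'
  refine ⟨bot_le, fun A => ?_⟩
  change iter A 0 = closure A
  rw [iter_zero, (isClosed_discrete A).closure_eq]

end

lemma AdmitsIntermediate.topologizable {G : Type} [Group G] (h : AdmitsIntermediate G) :
    Topologizable G := by
  obtain ⟨t, h1, h2, h3, h4, h5⟩ := h
  refine ⟨t, h1, h2, fun hd => ?_⟩
  rw [so_eq_zero] at h4
  exact absurd h4 (not_lt.mpr (bot_le))

/-- There is a topologizable group `G₂`, uncountable and of cardinality at most the continuum, such that in every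
Hausdorff group topology on `G₂` every convergent sequence is eventually constant. Hence every
sequential Hausdorff group topology on `G₂` is discrete, and `G₂` admits no sequential group
topology of intermediate sequential order. Consequently two topologizable groups, one admitting and
the other not admitting a sequential group topology of intermediate order, exist if and only if
some group admits such a topology. -/
theorem result :
    (∃ (G₂ : Type) (_ : Group G₂), Topologizable G₂ ∧ Uncountable G₂ ∧
      Cardinal.mk G₂ ≤ Cardinal.continuum ∧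
      (∀ t : TopologicalSpace G₂, @IsTopologicalGroup G₂ t _ → @T2Space G₂ t →
        ∀ (s : ℕ → G₂) (x : G₂), Tendsto s atTop (@nhds G₂ t x) → ∀ᶠ n in atTop, s n = x) ∧
      (∀ t : TopologicalSpace G₂, @IsTopologicalGroup G₂ t _ → @T2Space G₂ t → @IsSeq G₂ t →
        @DiscreteTopology G₂ t) ∧
      ¬ AdmitsIntermediate G₂) ∧
    ((∃ (G₁ : Type) (_ : Group G₁), AdmitsIntermediate G₁) ↔
      ∃ (G₁ : Type) (_ : Group G₁) (G₂ : Type) (_ : Group G₂),
        Topologizable G₁ ∧ Topologizable G₂ ∧ AdmitsIntermediate G₁ ∧ ¬ AdmitsIntermediate G₂) := by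
  have key : ∀ t : TopologicalSpace TH787.WreathTower.G,
      @IsTopologicalGroup TH787.WreathTower.G t _ → @T2Space TH787.WreathTower.G t →
        ∀ (s : ℕ → TH787.WreathTower.G) (x : TH787.WreathTower.G),
          Tendsto s atTop (@nhds TH787.WreathTower.G t x) → ∀ᶠ n in atTop, s n = x := by
    intro t h1 h2 s x h
    exact TH787.WreathTower.eventually_eq_of_tendsto s x h
  have key2 : ∀ t : TopologicalSpace TH787.WreathTower.G,
      @IsTopologicalGroup TH787.WreathTower.G t _ → @T2Space TH787.WreathTower.G t →
        @IsSeq TH787.WreathTower.G t → @DiscreteTopology TH787.WreathTower.G t := by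
    intro t h1 h2 hs
    exact discrete_of_isSeq (key t h1 h2) hs
  have key3 : ¬ AdmitsIntermediate TH787.WreathTower.G := by
    rintro ⟨t, h1, h2, h3, h4, h5⟩
    have hd := key2 t h1 h2 h3
    rw [so_eq_zero] at h4
    exact absurd h4 (not_lt.mpr (bot_le))
  refine ⟨⟨TH787.WreathTower.G, inferInstance, TH787.WreathTower.topologizable,
    TH787.WreathTower.uncountable_G, TH787.WreathTower.card_le, key, key2, key3⟩, ?_, ?_⟩
  · rintro ⟨G₁, i₁, h⟩
    exact ⟨G₁, i₁, TH787.WreathTower.G, inferInstance, h.topologizable,
      TH787.WreathTower.topologizable, h, key3⟩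
  · rintro ⟨G₁, i₁, -, -, -, -, h, -⟩
    exact ⟨G₁, i₁, h⟩

end Pool.Agent.Results.MP_37efd7_lc.LargeGroup
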